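import Pool.Agent.H52.XR2.S2

/-!
# XR2, row HL1: the improvement step
-/

set_option autoImplicit false

open MeasureTheory Set Filter Topology Metric Asymptotics
open scoped Real ENNReal RealInnerProductSpace

namespace Pool.XR2

open Pool.Agent.H45.XR

/-- real inner product of the plane -/
def hlip (p z : ℂ) : ℝ := p.re * z.re + p.im * z.im

lemma hlip_le (p z : ℂ) : hlip p z ≤ ‖p‖ * ‖z‖ := by
  have h : hlip p z = (p * (starRingEnd ℂ) z).re := by
    simp [hlip, Complex.mul_re]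
  rw [h]
  calc (p * (starRingEnd ℂ) z).re ≤ ‖p * (starRingEnd ℂ) z‖ := Complex.re_le_norm _
    _ = ‖p‖ * ‖z‖ := by rw [norm_mul, Complex.norm_conj]

lemma hlip_smul (p z : ℂ) (t : ℝ) : hlip p ((t : ℂ) * z) = t * hlip p z := by
  simp [hlip, Complex.mul_re, Complex.mul_im]; ring

lemma hlip_self (p : ℂ) : hlip p p = ‖p‖ ^ 2 := by
  rw [hlip, ← Complex.normSq_eq_norm_sq, Complex.normSq_apply]

/-- Rays into the upper half space meet the body. -/
lemma hl_ray {K : Set (ℂ × ℝ)} (hK : Body3 K) (hC : C1 K) (h0 : (0 : ℂ × ℝ) ∈ K)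
    (hp : ∀ p ∈ K, 0 ≤ p.2) (v : ℂ × ℝ) (hv : 0 < v.2) : ∃ t : ℝ, 0 < t ∧ t • v ∈ K := by
  by_contra hcon
  push Not at hcon
  set R : Set (ℂ × ℝ) := {x | ∃ t : ℝ, 0 < t ∧ x = t • v} with hR
  have hRc : Convex ℝ R := by
    rintro x ⟨s, hs, rfl⟩ y ⟨t, ht, rfl⟩ a b ha hb hab
    refine ⟨a * s + b * t, ?_, ?_⟩
    · rcases eq_or_lt_of_le ha with h | h
      · subst h
        have : b = 1 := by linarith
        subst this; simpa using ht
      · have h1 : 0 < a * s := mul_pos h hs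
        have h2 : 0 ≤ b * t := mul_nonneg hb ht.le
        linarith
    · rw [add_smul, smul_smul, smul_smul]
  have hdis : Disjoint (interior K) R := by
    rw [Set.disjoint_left]
    rintro x hx ⟨t, ht, rfl⟩
    exact hcon t ht (interior_subset hx)
  obtain ⟨f, u, hfu, huf⟩ := geometric_hahn_banach_open hK.conv.interior isOpen_interior hRc hdis
  have hcl : K ⊆ closure (interior K) := by
    have := hK.conv.closure_interior_eq_closure_of_nonempty_interior hK.ne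
    rw [this]; exact subset_closure
  have hfK : ∀ k ∈ K, f k ≤ u := by
    intro k hk
    have hcs : closure (interior K) ⊆ {x | f x ≤ u} :=
      closure_minimal (fun x hx => (hfu x hx).le) (isClosed_le f.continuous continuous_const)
    exact hcs (hcl hk)
  have hu0 : 0 ≤ u := by simpa using hfK 0 h0
  have hfv : ∀ t : ℝ, 0 < t → u ≤ t * f v := by
    intro t ht
    have := huf (t • v) ⟨t, ht, rfl⟩
    simpa using this
  have hfv0 : 0 ≤ f v := by have := hfv 1 one_pos; linarith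
  have hu1 : u ≤ 0 := by
    by_contra hup
    push Not at hup
    have h1 := hfv (u / (2 * (f v + 1))) (by positivity)
    have h2 : u / (2 * (f v + 1)) * f v ≤ u / 2 := by
      rw [div_mul_eq_mul_div, div_le_div_iff₀ (by positivity) (by norm_num)]
      nlinarith
    linarith
  have hu : u = 0 := le_antisymm hu1 hu0
  subst hu
  set g : (ℂ × ℝ) →L[ℝ] ℝ := -(ContinuousLinearMap.snd ℝ ℂ ℝ) with hg
  obtain ⟨x0, hx0⟩ := hK.ne
  have hf0 : f ≠ 0 := by
    intro h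
    have := hfu x0 hx0
    rw [h] at this
    simp at this
  have hgv : g v = - v.2 := by simp [hg]
  have hg0 : g ≠ 0 := by
    intro h
    rw [h] at hgv
    simp at hgv
    linarith
  obtain ⟨c, hc, hgc⟩ := hC 0 h0 f g hf0 hg0 (fun q hq => by simpa using hfK q hq)
    (fun q hq => by
      have := hp q hq
      simp [hg, this])
  have h3 : g v = c * f v := by rw [hgc]; simp
  have h4 : 0 ≤ c * f v := mul_nonneg hc.le hfv0
  rw [← h3, hgv] at h4
  linarith

/-- The body contains wide cones at the origin. -/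
lemma hl_cone {K : Set (ℂ × ℝ)} (hK : Body3 K) (hC : C1 K) (h0 : (0 : ℂ × ℝ) ∈ K)
    (hp : ∀ p ∈ K, 0 ≤ p.2) (M : ℝ) (hM : 0 < M) :
    ∃ lam > 0, ∀ (w : ℂ) (a : ℝ), ‖w‖ ≤ M * a → a ≤ lam → (w, a) ∈ K := by
  have key : ∀ σ τ : ℝ, ∃ t : ℝ, 0 < t ∧ ∀ a : ℝ, 0 ≤ a → a ≤ t →
      (((⟨σ * M * a, τ * M * a⟩ : ℂ), a) : ℂ × ℝ) ∈ K := by
    intro σ τ
    obtain ⟨t, ht, htK⟩ := hl_ray hK hC h0 hp ((⟨σ * M, τ * M⟩ : ℂ), (1 : ℝ)) (by norm_num)
    refine ⟨t, ht, fun a ha hat => ?_⟩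
    have h1 : (1 - a / t) • (0 : ℂ × ℝ) + (a / t) • (t • ((⟨σ * M, τ * M⟩ : ℂ), (1 : ℝ))) ∈ K :=
      hK.conv h0 htK (by rw [sub_nonneg, div_le_one ht]; exact hat) (by positivity) (by ring)
    convert h1 using 1
    rw [smul_zero, zero_add, smul_smul, div_mul_cancel₀ _ ht.ne']
    apply Prod.ext
    · apply Complex.ext <;> simp <;> ring
    · simp
  obtain ⟨t1, ht1, k1⟩ := key 1 1
  obtain ⟨t2, ht2, k2⟩ := key (-1) 1
  obtain ⟨t3, ht3, k3⟩ := key 1 (-1)
  obtain ⟨t4, ht4, k4⟩ := key (-1) (-1)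
  refine ⟨min (min t1 t2) (min t3 t4), by positivity, fun w a hw ha => ?_⟩
  have ha1 : a ≤ t1 := ha.trans ((min_le_left _ _).trans (min_le_left _ _))
  have ha2 : a ≤ t2 := ha.trans ((min_le_left _ _).trans (min_le_right _ _))
  have ha3 : a ≤ t3 := ha.trans ((min_le_right _ _).trans (min_le_left _ _))
  have ha4 : a ≤ t4 := ha.trans ((min_le_right _ _).trans (min_le_right _ _))
  have ha0 : 0 ≤ a := by
    have : 0 ≤ M * a := (norm_nonneg w).trans hw
    by_contra hneg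
    push Not at hneg
    nlinarith
  rcases eq_or_lt_of_le ha0 with h | hapos
  · subst h
    have : w = 0 := by
      rw [← norm_le_zero_iff]; simpa using hw
    subst this
    exact h0
  have hMa : 0 < M * a := mul_pos hM hapos
  have hre : |w.re| ≤ M * a := (Complex.abs_re_le_norm w).trans hw
  have him : |w.im| ≤ M * a := (Complex.abs_im_le_norm w).trans hw
  rw [abs_le] at hre him
  have q1 := k1 a ha0 ha1
  have q2 := k2 a ha0 ha2
  have q3 := k3 a ha0 ha3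
  have q4 := k4 a ha0 ha4
  set u : ℝ := (1 + w.re / (M * a)) / 2 with hu
  set v : ℝ := (1 + w.im / (M * a)) / 2 with hv
  have hur : -1 ≤ w.re / (M * a) ∧ w.re / (M * a) ≤ 1 := by
    constructor
    · rw [le_div_iff₀ hMa]; linarith
    · rw [div_le_one hMa]; linarith
  have hvr : -1 ≤ w.im / (M * a) ∧ w.im / (M * a) ≤ 1 := by
    constructor
    · rw [le_div_iff₀ hMa]; linarith
    · rw [div_le_one hMa]; linarith
  have x1 := hK.conv q1 q2 (show 0 ≤ u by rw [hu]; linarith) (show 0 ≤ 1 - u by rw [hu]; linarith)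
    (by ring)
  have x2 := hK.conv q3 q4 (show 0 ≤ u by rw [hu]; linarith) (show 0 ≤ 1 - u by rw [hu]; linarith)
    (by ring)
  have x3 := hK.conv x1 x2 (show 0 ≤ v by rw [hv]; linarith) (show 0 ≤ 1 - v by rw [hv]; linarith)
    (by ring)
  convert x3 using 1
  have e1 : w.re = (w.re / (M * a)) * (M * a) := by field_simp
  have e2 : w.im = (w.im / (M * a)) * (M * a) := by field_simp
  apply Prod.ext
  · apply Complex.ext
    · simp
      rw [hu, hv]
      linear_combination e1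
    · simp
      rw [hu, hv]
      linear_combination e2
  · simp
    ring

/-- The section by the plane with slope `g` and height `t` at the origin. -/
lemma hl_sec (K : Set (ℂ × ℝ)) (g : ℂ) (t : ℝ) (z : ℂ) :
    z ∈ sec (Sg g K) t ↔ (z, t + hlip g z) ∈ K := Iff.rfl

/-- Heights near the origin are interior. -/
lemma hl_hts {K : Set (ℂ × ℝ)} {lam : ℝ} (h1 : ∀ (w : ℂ) (a : ℝ), ‖w‖ ≤ a → a ≤ lam → (w, a) ∈ K)
    (g : ℂ) (t : ℝ) (ht : 0 < t) (htl : t < lam) : t ∈ Hts (Sg g K) := by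
  refine ⟨0, ?_⟩
  have hU : IsOpen {p : ℂ × ℝ | ‖p.1‖ < p.2 + (g.re * p.1.re + g.im * p.1.im) ∧
      p.2 + (g.re * p.1.re + g.im * p.1.im) < lam} := by
    have c1 : Continuous (fun p : ℂ × ℝ => ‖p.1‖) := by fun_prop
    have c2 : Continuous (fun p : ℂ × ℝ => p.2 + (g.re * p.1.re + g.im * p.1.im)) := by fun_prop
    exact (isOpen_lt c1 c2).inter (isOpen_lt c2 continuous_const)
  refine mem_interior.2 ⟨_, ?_, hU, ?_⟩
  · rintro p ⟨hp1, hp2⟩
    exact h1 _ _ hp1.le hp2.le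
  · simp [ht, htl]

/-- The vertical segments. -/
lemma hl_vert {K : Set (ℂ × ℝ)} (hK : Convex ℝ K) (y : ℂ) (h l t : ℝ) (h1 : (y, h) ∈ K)
    (h2 : (y, l) ∈ K) (h3 : h ≤ t) (h4 : t ≤ l) : (y, t) ∈ K := by
  have := hK.segment_subset h1 h2
  apply this
  rw [segment_eq_image]
  rcases eq_or_lt_of_le (h3.trans h4) with hh | hh
  · refine ⟨0, by simp, ?_⟩
    have h7 : t = h := by linarith
    simp [h7]
  · refine ⟨(t - h) / (l - h), ⟨by apply div_nonneg <;> linarith, ?_⟩, ?_⟩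
    · rw [div_le_one (by linarith)]; linarith
    · have h5 : l - h ≠ 0 := by linarith
      ext <;> simp
      · field_simp
        ring
      · field_simp
        ring

/-- `P(m,κ)`. -/
def HP (K : Set (ℂ × ℝ)) (lam : ℝ) (p : ℂ) (m κ : ℝ) : Prop :=
  ∀ (y : ℂ) (h : ℝ), (y, h) ∈ K → ‖y‖ ≤ lam → m * ‖y‖ ≤ h - hlip p y / 2 + κ

lemma hl_coords (y z : ℂ) (hy : y ≠ 0) :
    tc (Complex.arg y) z ^ 2 = ‖z‖ ^ 2 - (hlip y z / ‖y‖) ^ 2 := by
  have hn : ‖y‖ ≠ 0 := norm_ne_zero_iff.2 hy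
  have hc : Real.cos (Complex.arg y) = y.re / ‖y‖ := Complex.cos_arg hy
  have hs : Real.sin (Complex.arg y) = y.im / ‖y‖ := Complex.sin_arg y
  have h1 : ‖y‖ ^ 2 = y.re ^ 2 + y.im ^ 2 := by
    rw [← Complex.normSq_eq_norm_sq, Complex.normSq_apply]; ring
  have h2 : ‖z‖ ^ 2 = z.re ^ 2 + z.im ^ 2 := by
    rw [← Complex.normSq_eq_norm_sq, Complex.normSq_apply]; ring
  rw [tc, hc, hs, hlip, h2]
  field_simp
  rw [h1]
  ring

/-- The step. -/
lemma hl_step {K : Set (ℂ × ℝ)} (hK : Body3 K) {lam c η δ : ℝ}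
    (h1 : ∀ (w : ℂ) (a : ℝ), ‖w‖ ≤ a → a ≤ lam → (w, a) ∈ K) (hlam : 0 < lam)
    (hc : 0 < c) (hR : ∀ g : ℂ, ‖g‖ < η → ∀ h ∈ Hts (Sg g K), Round c (sec (Sg g K) h))
    (hδ : 0 < δ) (hδc : 24 * c ^ 2 * δ < 1) (p : ℂ) (m κ : ℝ) (hm : 0 ≤ m) (hκ : 0 < κ)
    (hκl : κ ≤ lam / 4) (hs1 : ‖p‖ / 2 + (1 + δ) * m ≤ 1 / 2) (hs2 : ‖p‖ / 2 + (1 + δ) * m < η)
    (hP : HP K lam p m κ) : HP K lam p ((1 + δ) * m) (2 * κ) := by
  intro y h hyh hyl
  by_contra hcon
  push Not at hcon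
  have hP1 := hP y h hyh hyl
  have hsm : κ < δ * m * ‖y‖ := by nlinarith
  have hy0 : y ≠ 0 := by
    rintro rfl
    simp at hsm
    linarith
  have hny : 0 < ‖y‖ := norm_pos_iff.2 hy0
  have hmpos : 0 < m := by
    rcases eq_or_lt_of_le hm with h | h
    · rw [← h] at hsm; simp at hsm; linarith
    · exact h
  set g : ℂ := ((1 / 2 : ℝ) : ℂ) * p + (((1 + δ) * m / ‖y‖ : ℝ) : ℂ) * y with hg
  have hgip : ∀ z, hlip g z = hlip p z / 2 + (1 + δ) * m * (hlip y z / ‖y‖) := by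
    intro z
    simp only [hg, hlip, Complex.add_re, Complex.add_im, Complex.mul_re, Complex.mul_im,
      Complex.ofReal_re, Complex.ofReal_im]
    ring
  have hgn : ‖g‖ ≤ ‖p‖ / 2 + (1 + δ) * m := by
    calc ‖g‖ ≤ ‖((1 / 2 : ℝ) : ℂ) * p‖ + ‖(((1 + δ) * m / ‖y‖ : ℝ) : ℂ) * y‖ := norm_add_le _ _
      _ = ‖p‖ / 2 + (1 + δ) * m := by
        rw [norm_mul, norm_mul, Complex.norm_real, Complex.norm_real, Real.norm_eq_abs,
          Real.norm_eq_abs, abs_of_pos (by norm_num : (0:ℝ) < 1 / 2),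
          abs_of_nonneg (by positivity)]
        field_simp
  have hκH : κ ∈ Hts (Sg g K) := hl_hts h1 g κ hκ (by linarith)
  have hRo := hR g (by linarith) κ hκH
  set S := sec (Sg g K) κ with hS
  have hS0 : (0 : ℂ) ∈ S := by
    rw [hS, hl_sec]
    have : hlip g 0 = 0 := by simp [hlip]
    rw [this, add_zero]
    exact h1 0 κ (by simpa using hκ.le) (by linarith)
  have hyy : hlip y y / ‖y‖ = ‖y‖ := by rw [hlip_self]; field_simp
  have hgy : hlip g y = hlip p y / 2 + (1 + δ) * m * ‖y‖ := by rw [hgip, hyy]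
  have hSy : y ∈ S := by
    rw [hS, hl_sec]
    refine hl_vert hK.conv y h lam _ hyh (h1 y lam hyl le_rfl) ?_ ?_
    · rw [hgy]; linarith
    · have := hlip_le g y
      have h3 : ‖g‖ * ‖y‖ ≤ 1 / 2 * lam := by
        apply mul_le_mul (by linarith) hyl hny.le (by norm_num)
      linarith
  -- compactness
  have hScl : IsCompact S := by
    have hcont : Continuous (fun z : ℂ => (z, κ + hlip g z)) := by
      unfold hlip; fun_prop
    have hcl : IsClosed S := hK.cpt.isClosed.preimage hcont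
    have hbd : Bornology.IsBounded S := by
      have := hK.cpt.isBounded.image_fst
      refine this.subset ?_
      intro z hz
      exact ⟨_, hz, rfl⟩
    exact Metric.isCompact_of_isClosed_isBounded hcl hbd
  have hSc : Convex ℝ S := by
    intro a ha b hb s t hs ht hst
    rw [hS, hl_sec] at ha hb ⊢
    have := hK.conv ha hb hs ht hst
    convert this using 1
    apply Prod.ext
    · rfl
    · simp only [hlip, Prod.snd_add, Prod.smul_snd, smul_eq_mul, Complex.add_re, Complex.add_im,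
        Complex.real_smul, Complex.mul_re, Complex.mul_im, Complex.ofReal_re, Complex.ofReal_im]
      have : κ = s * κ + t * κ := by rw [← add_mul, hst, one_mul]
      nth_rewrite 1 [this]
      ring
  obtain ⟨zs, hzs, hmax⟩ := hScl.exists_isMaxOn ⟨0, hS0⟩ (continuous_norm.continuousOn)
  set D := ‖zs‖ with hD
  have hDmax : ∀ z ∈ S, ‖z‖ ≤ D := fun z hz => hmax hz
  have hDy : ‖y‖ ≤ D := hDmax y hSy
  have hDpos : 0 < D := lt_of_lt_of_le hny hDy
  -- the main estimate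
  have hcs : ∀ z : ℂ, hlip y z / ‖y‖ ≤ ‖z‖ := by
    intro z
    rw [div_le_iff₀ hny]
    have := hlip_le y z
    linarith
  have est1 : ∀ z ∈ S, ‖z‖ ≤ lam → ‖z‖ - hlip y z / ‖y‖ ≤ δ * (hlip y z / ‖y‖) + 2 * δ * ‖y‖ := by
    intro z hz hzl
    rw [hS, hl_sec] at hz
    have h3 := hP z _ hz hzl
    rw [hgip] at h3
    have h4 : m * ‖z‖ ≤ 2 * κ + (1 + δ) * m * (hlip y z / ‖y‖) := by linarith
    have h5 : m * ‖z‖ ≤ m * (2 * δ * ‖y‖ + (1 + δ) * (hlip y z / ‖y‖)) := by nlinarith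
    have h6 := le_of_mul_le_mul_left h5 hmpos
    linarith
  have est2 : ∀ z ∈ S, ‖z‖ - hlip y z / ‖y‖ ≤ 3 * δ * D := by
    intro z hz
    rcases le_or_gt ‖z‖ lam with hzl | hzl
    · have h3 := est1 z hz hzl
      have h4 := hcs z
      have h5 := hDmax z hz
      nlinarith
    · have hnz : 0 < ‖z‖ := hlam.trans hzl
      set t := lam / ‖z‖ with ht
      have ht0 : 0 < t := by positivity
      have ht1 : t ≤ 1 := by rw [ht, div_le_one hnz]; exact hzl.le
      have hz' : ((t : ℝ) : ℂ) * z ∈ S := by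
        have := hSc hS0 hz (show 0 ≤ 1 - t by linarith) ht0.le (by ring)
        simpa using this
      have hn' : ‖((t : ℝ) : ℂ) * z‖ = lam := by
        rw [norm_mul, Complex.norm_real, Real.norm_eq_abs, abs_of_pos ht0, ht]
        field_simp
      have h3 := est1 _ hz' hn'.le
      rw [hn', hlip_smul] at h3
      have h4 := hcs z
      have h5 : t * ‖z‖ = lam := by rw [ht]; field_simp
      have h6 : lam - t * (hlip y z / ‖y‖) ≤ 3 * δ * lam := by
        have h7 : t * (hlip y z / ‖y‖) ≤ lam := by rw [← h5]; exact mul_le_mul_of_nonneg_left h4 ht0.le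
        have h8 : t * hlip y z / ‖y‖ = t * (hlip y z / ‖y‖) := by ring
        rw [h8] at h3
        nlinarith
      have h9 : t * (‖z‖ - hlip y z / ‖y‖) ≤ t * (3 * δ * ‖z‖) := by
        calc t * (‖z‖ - hlip y z / ‖y‖) = lam - t * (hlip y z / ‖y‖) := by rw [mul_sub, h5]
          _ ≤ 3 * δ * lam := h6
          _ = t * (3 * δ * ‖z‖) := by rw [← h5]; ring
      have h10 := le_of_mul_le_mul_left h9 ht0
      have h11 := hDmax z hz
      nlinarith
  have est3 : ∀ z ∈ S, tc (Complex.arg y) z ^ 2 ≤ 6 * δ * D ^ 2 := by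
    intro z hz
    rw [hl_coords y z hy0]
    have h3 := est2 z hz
    have h4 := hcs z
    have h5 := hDmax z hz
    have h6 : ‖z‖ ^ 2 - (hlip y z / ‖y‖) ^ 2 = (‖z‖ - hlip y z / ‖y‖) * (‖z‖ + hlip y z / ‖y‖) := by
      ring
    rw [h6]
    calc (‖z‖ - hlip y z / ‖y‖) * (‖z‖ + hlip y z / ‖y‖)
        ≤ (‖z‖ - hlip y z / ‖y‖) * (2 * D) := by
          apply mul_le_mul_of_nonneg_left _ (by linarith); linarith
      _ ≤ (3 * δ * D) * (2 * D) := by
          apply mul_le_mul_of_nonneg_right h3 (by positivity)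
      _ = 6 * δ * D ^ 2 := by ring
  obtain ⟨p', hp', q', hq', hpq⟩ := hRo 0 hS0 zs hzs (Complex.arg y)
  have e1 := est3 p' hp'
  have e2 := est3 q' hq'
  set A := tc (Complex.arg y) q' with hA
  set B := tc (Complex.arg y) p' with hB
  have e3 : D ≤ c * (A - B) := by simpa using hpq
  have e4 : (A - B) ^ 2 ≤ 24 * δ * D ^ 2 := by nlinarith [sq_nonneg (A + B)]
  have e5 : D ^ 2 ≤ c ^ 2 * (A - B) ^ 2 := by
    rw [← mul_pow]
    exact pow_le_pow_left₀ hDpos.le e3 2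
  have e6 : c ^ 2 * (A - B) ^ 2 ≤ c ^ 2 * (24 * δ * D ^ 2) :=
    mul_le_mul_of_nonneg_left e4 (by positivity)
  have e7 : c ^ 2 * (24 * δ * D ^ 2) = (24 * c ^ 2 * δ) * D ^ 2 := by ring
  have e8 : (24 * c ^ 2 * δ) * D ^ 2 < 1 * D ^ 2 := mul_lt_mul_of_pos_right hδc (by positivity)
  linarith

/-- The start. -/
lemma hl_start {K : Set (ℂ × ℝ)} (hK : Body3 K) (hp : ∀ p ∈ K, 0 ≤ p.2) {lam c η : ℝ}
    (h1 : ∀ (w : ℂ) (a : ℝ), ‖w‖ ≤ a → a ≤ lam → (w, a) ∈ K) (hlam : 0 < lam)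
    (hc : 1 ≤ c) (hR : ∀ g : ℂ, ‖g‖ < η → ∀ h ∈ Hts (Sg g K), Round c (sec (Sg g K) h))
    (p : ℂ) (κ₀ κ₁ : ℝ) (hk0 : ∀ q ∈ K, hlip p q.1 - κ₀ ≤ q.2) (hk1 : 2 * κ₀ ≤ κ₁) (hκ : 0 < κ₁)
    (hκl : κ₁ ≤ lam / 4) (hs1 : ‖p‖ ≤ 1 / 4) (hs2 : ‖p‖ / 2 < η) :
    HP K lam p (‖p‖ / (6 * c)) κ₁ := by
  intro y h hyh hyl
  set s := h - hlip p y / 2 with hs
  have hh0 : 0 ≤ h := hp _ hyh
  have hh1 : hlip p y - κ₀ ≤ h := hk0 _ hyh
  have hsk : - κ₁ / 2 ≤ s := by rw [hs]; linarith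
  have hc0 : 0 < c := by linarith
  rcases eq_or_ne p 0 with hp0 | hp0
  · have : s = h := by rw [hs, hp0]; simp [hlip]
    rw [hp0]
    simp only [norm_zero, zero_div, zero_mul]
    linarith
  have hnp : 0 < ‖p‖ := norm_pos_iff.2 hp0
  rcases le_or_gt (lam / 4) s with hsl | hsl
  · have h2 : ‖p‖ / (6 * c) * ‖y‖ ≤ 1 / 24 * lam := by
      apply mul_le_mul _ hyl (norm_nonneg _) (by norm_num)
      rw [div_le_iff₀ (by positivity)]
      nlinarith
    linarith
  set κ' := max s 0 + κ₁ / 2 with hκ'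
  have hs0 : 0 ≤ max s 0 := le_max_right _ _
  have hs3 : s ≤ max s 0 := le_max_left _ _
  have hs4 : max s 0 ≤ lam / 4 := max_le hsl.le (by positivity)
  have hκ'0 : 0 < κ' := by rw [hκ']; linarith
  have hκ'l : κ' < lam := by rw [hκ']; linarith
  set g : ℂ := ((1 / 2 : ℝ) : ℂ) * p with hg
  have hgip : ∀ z, hlip g z = hlip p z / 2 := by
    intro z
    simp only [hg, hlip, Complex.mul_re, Complex.mul_im, Complex.ofReal_re, Complex.ofReal_im]
    ring
  have hgn : ‖g‖ = ‖p‖ / 2 := by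
    rw [hg, norm_mul, Complex.norm_real, Real.norm_eq_abs, abs_of_pos (by norm_num : (0:ℝ) < 1 / 2)]
    ring
  have hRo := hR g (by rw [hgn]; exact hs2) κ' (hl_hts h1 g κ' hκ'0 hκ'l)
  set S := sec (Sg g K) κ' with hS
  have hS0 : (0 : ℂ) ∈ S := by
    rw [hS, hl_sec]
    have : hlip g 0 = 0 := by simp [hlip]
    rw [this, add_zero]
    exact h1 0 κ' (by simpa using hκ'0.le) hκ'l.le
  have hSy : y ∈ S := by
    rw [hS, hl_sec]
    refine hl_vert hK.conv y h lam _ hyh (h1 y lam hyl le_rfl) ?_ ?_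
    · rw [hgip]; linarith
    · have h2 := hlip_le g y
      have h3 : ‖g‖ * ‖y‖ ≤ 1 / 8 * lam := by
        rw [hgn]
        apply mul_le_mul (by linarith) hyl (norm_nonneg _) (by norm_num)
      rw [hκ']
      linarith
  have hSb : ∀ z ∈ S, -(2 * κ') ≤ hlip p z ∧ hlip p z ≤ 2 * κ' + κ₁ := by
    intro z hz
    rw [hS, hl_sec, hgip] at hz
    have h2 := hp _ hz
    have h3 := hk0 _ hz
    simp only at h2 h3
    constructor <;> linarith
  obtain ⟨p', hp', q', hq', hpq⟩ := hRo 0 hS0 y hSy (Complex.arg p - π / 2)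
  have htc : ∀ z, tc (Complex.arg p - π / 2) z = hlip p z / ‖p‖ := by
    intro z
    have hcc : Real.cos (Complex.arg p) = p.re / ‖p‖ := Complex.cos_arg hp0
    have hss : Real.sin (Complex.arg p) = p.im / ‖p‖ := Complex.sin_arg p
    rw [tc, Real.cos_sub_pi_div_two, Real.sin_sub_pi_div_two, hcc, hss, hlip]
    ring
  rw [htc, htc] at hpq
  have h2 := (hSb q' hq').2
  have h3 := (hSb p' hp').1
  have h4 : ‖y‖ ≤ c * ((4 * κ' + κ₁) / ‖p‖) := by
    have h5 : ‖(0 : ℂ) - y‖ = ‖y‖ := by simp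
    rw [h5] at hpq
    refine hpq.trans (mul_le_mul_of_nonneg_left ?_ hc0.le)
    rw [← sub_div]
    apply div_le_div_of_nonneg_right _ hnp.le
    linarith
  have h5 : ‖p‖ / (6 * c) * ‖y‖ ≤ (4 * κ' + κ₁) / 6 := by
    calc ‖p‖ / (6 * c) * ‖y‖ ≤ ‖p‖ / (6 * c) * (c * ((4 * κ' + κ₁) / ‖p‖)) := by
          apply mul_le_mul_of_nonneg_left h4 (by positivity)
      _ = (4 * κ' + κ₁) / 6 := by field_simp
  refine h5.trans ?_
  rw [hκ']
  rcases le_total s 0 with h6 | h6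
  · rw [max_eq_right h6]; linarith
  · rw [max_eq_left h6]; linarith

/-- HL1. -/
theorem t_hl1 : HL1Stmt := by
  intro K hK hC h0 hp ⟨c₀, hc₀, η, hη, hR₀⟩
  -- a larger constant
  set c := max c₀ 1 with hc
  have hc1 : 1 ≤ c := le_max_right _ _
  have hcpos : 0 < c := by linarith
  have hR : ∀ g : ℂ, ‖g‖ < η → ∀ h ∈ Hts (Sg g K), Round c (sec (Sg g K) h) := by
    intro g hg h hh p hp' q hq φ
    obtain ⟨p₁, hp₁, q₁, hq₁, h2⟩ := hR₀ g hg h hh p hp' q hq φ
    refine ⟨p₁, hp₁, q₁, hq₁, h2.trans ?_⟩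
    have h3 : 0 ≤ tc φ q₁ - tc φ p₁ := by
      by_contra hneg
      push Not at hneg
      have := norm_nonneg (p - q)
      nlinarith
    exact mul_le_mul_of_nonneg_right (le_max_left _ _) h3
  set δ := 1 / (25 * c ^ 2) with hδ
  have hδpos : 0 < δ := by positivity
  have hδc : 24 * c ^ 2 * δ < 1 := by
    rw [hδ]
    rw [mul_one_div, div_lt_one (by positivity)]
    nlinarith [sq_nonneg c]
  obtain ⟨J, hJ⟩ := pow_unbounded_of_one_lt (24 * c) (show (1 : ℝ) < 1 + δ by linarith)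
  set Λ := (1 + δ) ^ J with hΛ
  have hΛ1 : 1 ≤ Λ := by nlinarith
  obtain ⟨lam, hlam, h1'⟩ := hl_cone hK hC h0 hp 1 one_pos
  have h1 : ∀ (w : ℂ) (a : ℝ), ‖w‖ ≤ a → a ≤ lam → (w, a) ∈ K :=
    fun w a h2 h3 => h1' w a (by linarith) h3
  -- the slope bound
  obtain ⟨s, hs, hs1, hs2, hs3⟩ : ∃ s : ℝ, 0 < s ∧ s * (1 / 2 + Λ) ≤ 1 / 2 ∧ s * (1 / 2 + Λ) < η ∧
      s ≤ 1 / 4 := by
    refine ⟨min (1 / 4) (min (1 / 2) (η / 2)  / (1 / 2 + Λ)), by positivity, ?_, ?_, min_le_left _ _⟩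
    · calc min (1 / 4) (min (1 / 2) (η / 2)  / (1 / 2 + Λ)) * (1 / 2 + Λ)
          ≤ (min (1 / 2) (η / 2)  / (1 / 2 + Λ)) * (1 / 2 + Λ) :=
            mul_le_mul_of_nonneg_right (min_le_right _ _) (by positivity)
        _ = min (1 / 2) (η / 2) := by field_simp
        _ ≤ 1 / 2 := min_le_left _ _
    · calc min (1 / 4) (min (1 / 2) (η / 2)  / (1 / 2 + Λ)) * (1 / 2 + Λ)
          ≤ (min (1 / 2) (η / 2)  / (1 / 2 + Λ)) * (1 / 2 + Λ) :=
            mul_le_mul_of_nonneg_right (min_le_right _ _) (by positivity)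
        _ = min (1 / 2) (η / 2) := by field_simp
        _ ≤ η / 2 := min_le_right _ _
        _ < η := by linarith
  obtain ⟨lm, hlm, h2⟩ := hl_cone hK hC h0 hp (2 / s) (by positivity)
  refine ⟨2 ^ J + 1, by have := Nat.one_le_two_pow (n := J); omega, min (lam / 4) lm, by positivity, ?_⟩
  intro x a hx ha hxa
  by_contra hcon
  have ha1 : a ≤ lam / 4 := ha.trans (min_le_left _ _)
  have ha2 : a ≤ lm := ha.trans (min_le_right _ _)
  have hx1 : ‖x‖ ≤ lam := hx.trans ((min_le_left _ _).trans (by linarith))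
  have ha0 : 0 ≤ a := hp _ hxa
  set N : ℝ := 2 ^ J + 1 with hN
  have h2J : (1 : ℝ) ≤ 2 ^ J := one_le_pow₀ (by norm_num)
  have hNpos : 0 < N := by rw [hN]; linarith
  have hcast : ((2 ^ J + 1 : ℕ) : ℝ) = N := by rw [hN]; push_cast; ring
  have hcastC : ((2 ^ J + 1 : ℕ) : ℂ) = ((N : ℝ) : ℂ) := by
    rw [← hcast]; simp
  rw [hcast, hcastC] at hcon
  set x' : ℂ := ((1 / N : ℝ) : ℂ) * x with hx'
  have hxx : x / ((N : ℝ) : ℂ) = x' := by
    rw [hx']; push_cast; ring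
  rw [hxx] at hcon
  have hxN : (x', a / N) ∈ K := by
    have := hK.conv h0 hxa (show 0 ≤ 1 - 1 / N by
      rw [sub_nonneg, div_le_one hNpos]; linarith) (show 0 ≤ 1 / N by positivity) (by ring)
    convert this using 1
    apply Prod.ext
    · simp [hx']
    · simp; ring
  have hapos : 0 < a := by
    rcases eq_or_lt_of_le ha0 with h | h
    · exfalso; apply hcon
      rw [← h] at hxN ⊢
      simpa using hxN
    · exact h
  -- separation
  obtain ⟨f, u, hfu, huf⟩ := geometric_hahn_banach_point_closed hK.conv hK.cpt.isClosed hcon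
  set β := f (0, 1) with hβ
  set q1 := f (1, 0) with hq1
  set q2 := f (Complex.I, 0) with hq2
  have hf : ∀ (z : ℂ) (h : ℝ), f (z, h) = z.re * q1 + z.im * q2 + h * β := by
    intro z h
    have e1 : ((z, h) : ℂ × ℝ) = z.re • ((1 : ℂ), (0 : ℝ)) + z.im • (Complex.I, (0 : ℝ)) +
        h • ((0 : ℂ), (1 : ℝ)) := by
      apply Prod.ext
      · apply Complex.ext <;> simp
      · simp
    rw [e1, map_add, map_add, map_smul, map_smul, map_smul]
    simp [hq1, hq2, hβ]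
  have hβpos : 0 < β := by
    have h3 := huf _ hxN
    have h4 := hfu.trans h3
    rw [hf, hf] at h4
    have h5 : 0 < (a / N - a / (2 * N)) * β := by linarith
    have h6 : a / N - a / (2 * N) = a / (2 * N) := by field_simp; ring
    rw [h6] at h5
    exact (pos_iff_pos_of_mul_pos h5).1 (by positivity)
  set p : ℂ := ⟨-q1 / β, -q2 / β⟩ with hpdef
  set κ₀ := -u / β with hκ₀
  have hip : ∀ (z : ℂ) (h : ℝ), f (z, h) = β * (h - hlip p z) := by
    intro z h
    rw [hf, hlip, hpdef]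
    field_simp
    ring
  have hk0 : ∀ q ∈ K, hlip p q.1 - κ₀ < q.2 := by
    intro q hq
    have h3 := huf q hq
    have h4 : f q = β * (q.2 - hlip p q.1) := hip q.1 q.2
    rw [h4] at h3
    have h5 : u / β < q.2 - hlip p q.1 := by rw [div_lt_iff₀ hβpos]; linarith
    have h6 : κ₀ = -(u / β) := by rw [hκ₀]; ring
    linarith
  have hκ0 : 0 < κ₀ := by
    have := hk0 _ h0
    have h3 : hlip p (0 : ℂ) = 0 := by simp [hlip]
    simp only [Prod.fst_zero, Prod.snd_zero] at this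
    linarith
  have hPx : a / (2 * N) + κ₀ < hlip p x' := by
    rw [hip] at hfu
    have h5 : a / (2 * N) - hlip p x' < u / β := by rw [lt_div_iff₀ hβpos]; linarith
    have h6 : κ₀ = -(u / β) := by rw [hκ₀]; ring
    linarith
  have hx'ip : hlip p x' = hlip p x / N := by
    rw [hx', hlip_smul]; ring
  have hPx2 : a / 2 + N * κ₀ < hlip p x := by
    rw [hx'ip, lt_div_iff₀ hNpos] at hPx
    have : (a / (2 * N) + κ₀) * N = a / 2 + N * κ₀ := by field_simp
    linarith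
  have hPx3 := hk0 _ hxa
  simp only at hPx3
  have hk2 : 2 * κ₀ * 2 ^ J < a := by
    have : N * κ₀ = 2 ^ J * κ₀ + κ₀ := by rw [hN]; ring
    nlinarith
  have hk3 : 2 * κ₀ < a := by nlinarith
  have hpn : ‖p‖ < s := by
    rcases eq_or_ne p 0 with hp0 | hp0
    · rw [hp0, norm_zero]; exact hs
    have hnp : 0 < ‖p‖ := norm_pos_iff.2 hp0
    have h3 : ((((2 / s * lm / ‖p‖ : ℝ) : ℂ) * p), lm) ∈ K := by
      apply h2 _ _ _ le_rfl
      rw [norm_mul, Complex.norm_real, Real.norm_eq_abs, abs_of_pos (by positivity)]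
      apply le_of_eq
      field_simp
    have h4 := hk0 _ h3
    simp only at h4
    rw [hlip_smul, hlip_self] at h4
    have h5 : 2 / s * lm / ‖p‖ * ‖p‖ ^ 2 = 2 * lm * (‖p‖ / s) := by field_simp
    rw [h5] at h4
    have h6 : 2 * lm * (‖p‖ / s) < 2 * lm * 1 := by linarith
    have h7 : ‖p‖ / s < 1 := lt_of_mul_lt_mul_left h6 (by positivity)
    rwa [div_lt_one hs] at h7
  have hpsum : ‖p‖ * (1 / 2 + Λ) ≤ s * (1 / 2 + Λ) :=
    mul_le_mul_of_nonneg_right hpn.le (by positivity)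
  -- the start
  set κ₁ := a / 2 ^ J with hκ₁
  have hκ₁pos : 0 < κ₁ := by positivity
  have hκ₁a : κ₁ ≤ a := by rw [hκ₁]; exact div_le_self ha0 h2J
  have start := hl_start hK hp h1 hlam hc1 hR p κ₀ κ₁ (fun q hq => (hk0 q hq).le)
    (by rw [hκ₁, le_div_iff₀ (by positivity)]; exact hk2.le) hκ₁pos (by linarith)
    (by linarith) (by nlinarith [norm_nonneg p])
  set m₀ := ‖p‖ / (6 * c) with hm₀
  have hm₀n : 0 ≤ m₀ := by positivity
  have hm₀p : m₀ ≤ ‖p‖ := by
    rw [hm₀]; exact div_le_self (norm_nonneg _) (by linarith)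
  have ind : ∀ j, j ≤ J → HP K lam p ((1 + δ) ^ j * m₀) (2 ^ j * κ₁) := by
    intro j
    induction j with
    | zero => intro _; simpa using start
    | succ j ih =>
      intro hj
      have hjJ : j ≤ J := by omega
      have hmj : (1 + δ) * ((1 + δ) ^ j * m₀) ≤ Λ * ‖p‖ := by
        calc (1 + δ) * ((1 + δ) ^ j * m₀) = (1 + δ) ^ (j + 1) * m₀ := by ring
          _ ≤ (1 + δ) ^ J * ‖p‖ := by
            apply mul_le_mul _ hm₀p hm₀n (by positivity)
            exact pow_le_pow_right₀ (by linarith) hj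
      have hκj : 2 ^ (j + 1) * κ₁ ≤ a := by
        rw [hκ₁]
        have h5 : (2 : ℝ) ^ (j + 1) ≤ 2 ^ J := pow_le_pow_right₀ (by norm_num) hj
        rw [mul_div_assoc', div_le_iff₀ (by positivity)]
        nlinarith
      have hκj2 : 2 ^ j * κ₁ ≤ a := by
        have : (2 : ℝ) ^ (j + 1) * κ₁ = 2 * (2 ^ j * κ₁) := by ring
        have h6 : 0 < (2 : ℝ) ^ j * κ₁ := by positivity
        linarith
      have := hl_step hK h1 hlam hcpos hR hδpos hδc p ((1 + δ) ^ j * m₀) (2 ^ j * κ₁)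
        (by positivity) (by positivity) (by linarith) (by nlinarith) (by nlinarith) (ih hjJ)
      have e1 : (1 + δ) ^ (j + 1) * m₀ = (1 + δ) * ((1 + δ) ^ j * m₀) := by ring
      have e2 : (2 : ℝ) ^ (j + 1) * κ₁ = 2 * (2 ^ j * κ₁) := by ring
      rw [e1, e2]
      exact this
  have fin := ind J le_rfl x a hxa hx1
  have hκa : 2 ^ J * κ₁ = a := by rw [hκ₁]; field_simp
  rw [hκa, ← hΛ] at fin
  have g1 : hlip p x ≤ ‖p‖ * ‖x‖ := hlip_le p x
  have g2 : 0 < ‖p‖ * ‖x‖ := by nlinarith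
  have g3 : Λ * m₀ * ‖x‖ = Λ / (6 * c) * (‖p‖ * ‖x‖) := by rw [hm₀]; ring
  have g4 : 4 < Λ / (6 * c) := by rw [lt_div_iff₀ (by positivity)]; linarith
  have g5 : 4 * (‖p‖ * ‖x‖) < Λ / (6 * c) * (‖p‖ * ‖x‖) := mul_lt_mul_of_pos_right g4 g2
  have g6 : 0 < N * κ₀ := by positivity
  rw [g3] at fin
  linarith

end Pool.XR2
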